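import Pool.Agent.Helper923.PNT

set_option autoImplicit false

namespace Pool.Agent.Results.MP_b09185_nt.ExtremalLengths

open Filter Asymptotics Topology

/-- `R_h(x) = (log x / h(x)) (π(x + h(x)) - π(x))`. -/
noncomputable def R (h : ℝ → ℝ) (x : ℝ) : ℝ :=
  Real.log x / h x * ((Nat.primeCounting ⌊x + h x⌋₊ : ℝ) - (Nat.primeCounting ⌊x⌋₊ : ℝ))

/-- `L(h)`, the lower limit of `R_h(x)` as `x → ∞`, in `[-∞, ∞]`. -/
noncomputable def L (h : ℝ → ℝ) : EReal := liminf (fun x : ℝ => ((R h x : ℝ) : EReal)) atTop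

/-- `U(h)`, the upper limit of `R_h(x)` as `x → ∞`, in `[-∞, ∞]`. -/
noncomputable def U (h : ℝ → ℝ) : EReal := limsup (fun x : ℝ => ((R h x : ℝ) : EReal)) atTop

/-- The function `(log x)^a`. -/
noncomputable def P (a : ℝ) (x : ℝ) : ℝ := Real.log x ^ a

/-- The number of primes up to `y`. -/
noncomputable def N (y : ℝ) : ℝ := (Nat.primeCounting ⌊y⌋₊ : ℝ)

theorem N_mono {y z : ℝ} (h : y ≤ z) : N y ≤ N z := by
  unfold N
  exact_mod_cast Nat.monotone_primeCounting (Nat.floor_mono h)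

theorem R_eq (h : ℝ → ℝ) (x : ℝ) : R h x = Real.log x / h x * (N (x + h x) - N x) := rfl

theorem P_pos {a x : ℝ} (hx : 1 < x) : 0 < P a x := Real.rpow_pos_of_pos (Real.log_pos hx) a

theorem P_mono {a x y : ℝ} (ha : 0 < a) (hx : 1 < x) (hxy : x ≤ y) : P a x ≤ P a y :=
  Real.rpow_le_rpow (Real.log_pos hx).le (Real.log_le_log (by linarith) hxy) ha.le

theorem lower {a l x : ℝ} (ha : 0 < a) (hl : 0 ≤ l) (hx : 1 < x)
    (hlow : ∀ y, x ≤ y → l * P a y / Real.log y ≤ N (y + P a y) - N y) :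
    ∀ n : ℕ, ∀ y T, x ≤ y → y ≤ T → T ≤ 2 * x → T - y ≤ n * P a x →
      l * (T - y - P a (2 * x)) / Real.log (2 * x) ≤ N T - N y := by
  have hlog2 : 0 < Real.log (2 * x) := Real.log_pos (by linarith)
  have base : ∀ y T : ℝ, x ≤ y → y ≤ T → T ≤ 2 * x → T - y ≤ P a (2 * x) →
      l * (T - y - P a (2 * x)) / Real.log (2 * x) ≤ N T - N y := by
    intro y T h1 h2 h3 h4
    have : l * (T - y - P a (2 * x)) / Real.log (2 * x) ≤ 0 := by
      apply div_nonpos_of_nonpos_of_nonneg _ hlog2.le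
      exact mul_nonpos_of_nonneg_of_nonpos hl (by linarith)
    have := N_mono h2
    linarith
  intro n
  induction n with
  | zero =>
    intro y T h1 h2 h3 h4
    apply base y T h1 h2 h3
    have := @P_pos a (2 * x) (by linarith)
    simp at h4
    linarith
  | succ n ih =>
    intro y T h1 h2 h3 h4
    by_cases hc : T - y ≤ P a y
    · exact base y T h1 h2 h3 (hc.trans (P_mono ha (by linarith) (h2.trans h3)))
    · push Not at hc
      have hy1 : 1 < y := by linarith
      have hpy := @P_pos a y hy1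
      have hxy := P_mono ha hx h1
      have i1 := ih (y + P a y) T (by linarith) (by linarith) h3 (by push_cast at h4; linarith)
      have i2 := hlow y h1
      have hlogy : 0 < Real.log y := Real.log_pos hy1
      have i3 : l * P a y / Real.log (2 * x) ≤ l * P a y / Real.log y := by
        apply div_le_div_of_nonneg_left (by positivity) hlogy
        exact Real.log_le_log (by linarith) (h2.trans h3)
      have i4 : l * (T - y - P a (2 * x)) / Real.log (2 * x) =
          l * (T - (y + P a y) - P a (2 * x)) / Real.log (2 * x) + l * P a y / Real.log (2 * x) := by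
        ring
      rw [i4]
      linarith

theorem upper {a u x : ℝ} (ha : 0 < a) (hu : 0 ≤ u) (hx : 1 < x)
    (hup : ∀ y, x ≤ y → N (y + P a y) - N y ≤ u * P a y / Real.log y) :
    ∀ n : ℕ, ∀ y T, x ≤ y → y ≤ T → T ≤ 2 * x → T - y ≤ n * P a x →
      N T - N y ≤ u * (T - y + P a (2 * x)) / Real.log x := by
  have hlogx : 0 < Real.log x := Real.log_pos hx
  have step : ∀ y, x ≤ y → N (y + P a y) - N y ≤ u * P a y / Real.log x := by
    intro y h1
    refine (hup y h1).trans ?_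
    have := @P_pos a y (by linarith)
    apply div_le_div_of_nonneg_left (by positivity) hlogx
    exact Real.log_le_log (by linarith) h1
  have base : ∀ y T : ℝ, x ≤ y → y ≤ T → T ≤ 2 * x → T - y ≤ P a y →
      N T - N y ≤ u * (T - y + P a (2 * x)) / Real.log x := by
    intro y T h1 h2 h3 h4
    have e1 : N T - N y ≤ N (y + P a y) - N y := by
      have := @N_mono T (y + P a y) (by linarith)
      linarith
    refine e1.trans ((step y h1).trans ?_)
    apply div_le_div_of_nonneg_right _ hlogx.le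
    apply mul_le_mul_of_nonneg_left _ hu
    have := P_mono ha (show 1 < y by linarith) (h2.trans h3)
    linarith
  intro n
  induction n with
  | zero =>
    intro y T h1 h2 h3 h4
    apply base y T h1 h2 h3
    have := @P_pos a y (by linarith)
    simp at h4
    linarith
  | succ n ih =>
    intro y T h1 h2 h3 h4
    by_cases hc : T - y ≤ P a y
    · exact base y T h1 h2 h3 hc
    · push Not at hc
      have hy1 : 1 < y := by linarith
      have hpy := @P_pos a y hy1
      have hxy := P_mono ha hx h1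
      have i1 := ih (y + P a y) T (by linarith) (by linarith) h3 (by push_cast at h4; linarith)
      have i2 := step y h1
      have i4 : u * (T - y + P a (2 * x)) / Real.log x =
          u * (T - (y + P a y) + P a (2 * x)) / Real.log x + u * P a y / Real.log x := by
        ring
      rw [i4]
      linarith

theorem P_two {a x : ℝ} (ha : 0 < a) (hx : 2 ≤ x) : P a (2 * x) ≤ 2 ^ a * P a x := by
  unfold P
  rw [← Real.mul_rpow (by norm_num) (Real.log_nonneg (by linarith))]
  apply Real.rpow_le_rpow (Real.log_nonneg (by linarith)) _ ha.le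
  rw [Real.log_mul (by norm_num) (by linarith)]
  have := Real.log_le_log (by norm_num) hx
  linarith

theorem R_nonneg_of {h : ℝ → ℝ} {x : ℝ} (hx : 1 < x) (hh : 0 < h x) : 0 ≤ R h x := by
  rw [R_eq]
  have := @N_mono x (x + h x) (by linarith)
  have := Real.log_pos hx
  apply mul_nonneg (by positivity) (by linarith)

theorem ev_pos {a : ℝ} {h : ℝ → ℝ} (hh : Tendsto (fun x => h x / P a x) atTop atTop) :
    ∀ᶠ x in atTop, 0 < h x := by
  filter_upwards [hh.eventually_gt_atTop 0, eventually_gt_atTop 1] with x h1 h2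
  have := @P_pos a x h2
  exact (div_pos_iff_of_pos_right this).1 h1

theorem ev_le {h : ℝ → ℝ} (ho : h =o[atTop] (id : ℝ → ℝ)) : ∀ᶠ x in atTop, h x ≤ x := by
  filter_upwards [ho.bound (show (0 : ℝ) < 1 by norm_num), eventually_gt_atTop 0] with x h1 h2
  simp only [id, Real.norm_eq_abs, one_mul, abs_of_pos h2] at h1
  exact (le_abs_self _).trans h1

theorem tendsto_err {a : ℝ} {h : ℝ → ℝ} (hh : Tendsto (fun x => h x / P a x) atTop atTop) :
    Tendsto (fun x => (2 : ℝ) ^ a / (h x / P a x)) atTop (𝓝 0) :=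
  hh.const_div_atTop _

theorem tendsto_ratio : Tendsto (fun x : ℝ => Real.log x / Real.log (2 * x)) atTop (𝓝 1) := by
  have h1 : Tendsto (fun x : ℝ => 1 / (1 + Real.log 2 / Real.log x)) atTop (𝓝 (1 / (1 + 0))) := by
    apply Tendsto.div tendsto_const_nhds _ (by norm_num)
    exact tendsto_const_nhds.add (Real.tendsto_log_atTop.const_div_atTop _)
  have h2 : (1 : ℝ) / (1 + 0) = 1 := by norm_num
  rw [h2] at h1
  refine h1.congr' ?_
  filter_upwards [eventually_gt_atTop 1] with x hx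
  have := Real.log_pos hx
  rw [Real.log_mul (by norm_num) (by linarith)]
  have h3 : Real.log 2 + Real.log x ≠ 0 := by
    have := Real.log_pos (show (1 : ℝ) < 2 by norm_num)
    linarith
  field_simp
  ring

theorem sandwich_low {a l l' : ℝ} (ha : 0 < a) (hl : 0 ≤ l) {h : ℝ → ℝ}
    (hh : Tendsto (fun x => h x / P a x) atTop atTop) (ho : h =o[atTop] (id : ℝ → ℝ))
    (ev : ∀ᶠ x in atTop, l ≤ R (P a) x) (hll : l' < l) : ∀ᶠ x in atTop, l' ≤ R h x := by
  have lim : Tendsto (fun x => l * (1 - (2 : ℝ) ^ a / (h x / P a x)) *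
      (Real.log x / Real.log (2 * x))) atTop (𝓝 (l * (1 - 0) * 1)) :=
    ((tendsto_const_nhds.sub (tendsto_err hh)).const_mul l).mul tendsto_ratio
  simp only [sub_zero, mul_one] at lim
  obtain ⟨x0, hx0⟩ := (eventually_atTop.1 ev)
  filter_upwards [lim.eventually (lt_mem_nhds hll), ev_pos hh, ev_le ho, eventually_ge_atTop x0,
    eventually_ge_atTop 2] with x h1 h2 h3 h4 h5
  have hx1 : (1 : ℝ) < x := by linarith
  have hlog : 0 < Real.log x := Real.log_pos hx1
  have hlog2 : 0 < Real.log (2 * x) := Real.log_pos (by linarith)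
  have hPx := @P_pos a x hx1
  have key : l * (h x - P a (2 * x)) / Real.log (2 * x) ≤ N (x + h x) - N x := by
    obtain ⟨n, hn⟩ := exists_nat_ge (h x / P a x)
    have := lower ha hl hx1 (fun y hy => by
      have e := hx0 y (h4.trans hy)
      rw [R_eq] at e
      have hy1 : 1 < y := by linarith
      have := Real.log_pos hy1
      have := @P_pos a y hy1
      rw [div_mul_eq_mul_div, le_div_iff₀ (by positivity)] at e
      rw [div_le_iff₀ (by positivity)]
      linarith) n x (x + h x) le_rfl (by linarith) (by linarith)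
        (by rw [div_le_iff₀ hPx] at hn; linarith)
    have e : x + h x - x - P a (2 * x) = h x - P a (2 * x) := by ring
    rw [e] at this
    exact this
  have hP2 := P_two ha h5
  have k2 : l * (h x - 2 ^ a * P a x) / Real.log (2 * x) ≤ N (x + h x) - N x := by
    refine le_trans ?_ key
    apply div_le_div_of_nonneg_right _ hlog2.le
    apply mul_le_mul_of_nonneg_left _ hl
    linarith
  refine h1.le.trans ?_
  rw [R_eq]
  have e2 : l * (1 - (2 : ℝ) ^ a / (h x / P a x)) * (Real.log x / Real.log (2 * x)) =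
      Real.log x / h x * (l * (h x - 2 ^ a * P a x) / Real.log (2 * x)) := by
    field_simp
  rw [e2]
  exact mul_le_mul_of_nonneg_left k2 (by positivity)

theorem sandwich_up {a u u' : ℝ} (ha : 0 < a) (hu : 0 ≤ u) {h : ℝ → ℝ}
    (hh : Tendsto (fun x => h x / P a x) atTop atTop) (ho : h =o[atTop] (id : ℝ → ℝ))
    (ev : ∀ᶠ x in atTop, R (P a) x ≤ u) (huu : u < u') : ∀ᶠ x in atTop, R h x ≤ u' := by
  have lim : Tendsto (fun x => u * (1 + (2 : ℝ) ^ a / (h x / P a x))) atTop (𝓝 (u * (1 + 0))) :=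
    (tendsto_const_nhds.add (tendsto_err hh)).const_mul u
  simp only [add_zero, mul_one] at lim
  obtain ⟨x0, hx0⟩ := (eventually_atTop.1 ev)
  filter_upwards [lim.eventually (gt_mem_nhds huu), ev_pos hh, ev_le ho, eventually_ge_atTop x0,
    eventually_ge_atTop 2] with x h1 h2 h3 h4 h5
  have hx1 : (1 : ℝ) < x := by linarith
  have hlog : 0 < Real.log x := Real.log_pos hx1
  have hPx := @P_pos a x hx1
  have key : N (x + h x) - N x ≤ u * (h x + P a (2 * x)) / Real.log x := by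
    obtain ⟨n, hn⟩ := exists_nat_ge (h x / P a x)
    have := upper ha hu hx1 (fun y hy => by
      have e := hx0 y (h4.trans hy)
      rw [R_eq] at e
      have hy1 : 1 < y := by linarith
      have := Real.log_pos hy1
      have := @P_pos a y hy1
      rw [div_mul_eq_mul_div, div_le_iff₀ (by positivity)] at e
      rw [le_div_iff₀ (by positivity)]
      linarith) n x (x + h x) le_rfl (by linarith) (by linarith)
        (by rw [div_le_iff₀ hPx] at hn; linarith)
    have e : x + h x - x + P a (2 * x) = h x + P a (2 * x) := by ring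
    rw [e] at this
    exact this
  have hP2 := P_two ha h5
  have k2 : N (x + h x) - N x ≤ u * (h x + 2 ^ a * P a x) / Real.log x := by
    refine le_trans key ?_
    apply div_le_div_of_nonneg_right _ hlog.le
    apply mul_le_mul_of_nonneg_left _ hu
    linarith
  refine le_trans ?_ h1.le
  rw [R_eq]
  have e2 : u * (1 + (2 : ℝ) ^ a / (h x / P a x)) =
      Real.log x / h x * (u * (h x + 2 ^ a * P a x) / Real.log x) := by
    field_simp
  rw [e2]
  exact mul_le_mul_of_nonneg_left k2 (by positivity)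

theorem L_nonneg {h : ℝ → ℝ} (hp : ∀ᶠ x in atTop, 0 < h x) : 0 ≤ L h := by
  unfold L
  refine le_liminf_of_le (by isBoundedDefault) ?_
  filter_upwards [hp, eventually_gt_atTop 1] with x h1 h2
  exact_mod_cast R_nonneg_of h2 h1

theorem L_le_U (h : ℝ → ℝ) : L h ≤ U h := liminf_le_limsup

theorem part_L {a : ℝ} (ha : 0 < a) {h : ℝ → ℝ}
    (hh : Tendsto (fun x => h x / P a x) atTop atTop) (ho : h =o[atTop] (id : ℝ → ℝ)) :
    L (P a) ≤ L h := by
  by_contra hc
  push Not at hc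
  obtain ⟨c, hc1, hc2⟩ := EReal.lt_iff_exists_real_btwn.1 hc
  obtain ⟨c', hc3, hc4⟩ := EReal.lt_iff_exists_real_btwn.1 hc1
  have h0 : (0 : EReal) < (c' : EReal) := lt_of_le_of_lt (L_nonneg (ev_pos hh)) hc3
  have h0' : 0 < c' := by exact_mod_cast h0
  have hcc : c' < c := by exact_mod_cast hc4
  have ev : ∀ᶠ x in atTop, c ≤ R (P a) x := by
    have := eventually_lt_of_lt_liminf (f := atTop) (u := fun x : ℝ => ((R (P a) x : ℝ) : EReal)) hc2
    filter_upwards [this] with x hx
    exact le_of_lt (by exact_mod_cast hx)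
  have ev2 := sandwich_low ha (by linarith) hh ho ev hcc
  have : (c' : EReal) ≤ L h := by
    unfold L
    refine le_liminf_of_le (by isBoundedDefault) ?_
    filter_upwards [ev2] with x hx
    exact_mod_cast hx
  exact absurd this (not_le.2 hc3)

theorem part_U {a : ℝ} (ha : 0 < a) {h : ℝ → ℝ}
    (hh : Tendsto (fun x => h x / P a x) atTop atTop) (ho : h =o[atTop] (id : ℝ → ℝ)) :
    U h ≤ U (P a) := by
  by_contra hc
  push Not at hc
  obtain ⟨c, hc1, hc2⟩ := EReal.lt_iff_exists_real_btwn.1 hc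
  obtain ⟨c', hc3, hc4⟩ := EReal.lt_iff_exists_real_btwn.1 hc2
  have hp : ∀ᶠ x in atTop, 0 < P a x := by
    filter_upwards [eventually_gt_atTop 1] with x hx using P_pos hx
  have h0 : (0 : EReal) < (c : EReal) :=
    lt_of_le_of_lt ((L_nonneg hp).trans (L_le_U _)) hc1
  have h0' : 0 < c := by exact_mod_cast h0
  have hcc : c < c' := by exact_mod_cast hc3
  have ev : ∀ᶠ x in atTop, R (P a) x ≤ c := by
    have := eventually_lt_of_limsup_lt (f := atTop) (u := fun x : ℝ => ((R (P a) x : ℝ) : EReal)) hc1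
    filter_upwards [this] with x hx
    exact le_of_lt (by exact_mod_cast hx)
  have ev2 := sandwich_up ha h0'.le hh ho ev hcc
  have : U h ≤ (c' : EReal) := by
    unfold U
    refine limsup_le_of_le (by isBoundedDefault) ?_
    filter_upwards [ev2] with x hx
    exact_mod_cast hx
  exact absurd this (not_le.2 hc4)

theorem P_isLittleO (b : ℝ) : (P b) =o[atTop] (id : ℝ → ℝ) := by
  have := isLittleO_log_rpow_rpow_atTop b (show (0 : ℝ) < 1 by norm_num)
  show (fun x : ℝ => Real.log x ^ b) =o[atTop] (fun x : ℝ => x)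
  simpa using this

theorem P_div {a b : ℝ} (hab : a < b) : Tendsto (fun x => P b x / P a x) atTop atTop := by
  have h1 : Tendsto (fun x : ℝ => Real.log x ^ (b - a)) atTop atTop :=
    (tendsto_rpow_atTop (by linarith)).comp Real.tendsto_log_atTop
  refine h1.congr' ?_
  filter_upwards [eventually_gt_atTop 1] with x hx
  unfold P
  rw [Real.rpow_sub (Real.log_pos hx)]

theorem pnt_two : Tendsto (fun x : ℝ => (N (2 * x) - N x) * Real.log (2 * x) / x) atTop (𝓝 1) := by
  have h1 := Pool.Agent.Helper923.PNT.pi_tendsto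
  have h2 := h1.comp (tendsto_id.const_mul_atTop (show (0 : ℝ) < 2 by norm_num))
  have h3 := (h2.const_mul 2).sub (h1.div tendsto_ratio (by norm_num))
  have h4 : (2 : ℝ) * 1 - 1 / 1 = 1 := by norm_num
  rw [h4] at h3
  refine h3.congr' ?_
  filter_upwards [eventually_gt_atTop 1] with x hx
  have hl := Real.log_pos hx
  have hl2 := Real.log_pos (show 1 < 2 * x by linarith)
  simp only [Function.comp, id, N, Pi.div_apply]
  have : x ≠ 0 := by linarith
  field_simp

theorem P_two_div {a : ℝ} (ha : 0 < a) :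
    Tendsto (fun x : ℝ => P a (2 * x) / x) atTop (𝓝 0) := by
  have h1 : Tendsto (fun x : ℝ => (2 : ℝ) ^ a * (P a x / x)) atTop (𝓝 (2 ^ a * 0)) :=
    ((isLittleO_iff_tendsto' (by
      filter_upwards [eventually_gt_atTop 0] with x hx h
      exact absurd h hx.ne')).1 (P_isLittleO a)).const_mul _
  rw [mul_zero] at h1
  refine squeeze_zero' ?_ ?_ h1
  · filter_upwards [eventually_gt_atTop 1] with x hx
    have := @P_pos a (2 * x) (by linarith)
    positivity
  · filter_upwards [eventually_ge_atTop 2] with x hx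
    have h0 : 0 < x := by linarith
    rw [← mul_div_assoc]
    exact div_le_div_of_nonneg_right (P_two ha hx) h0.le

theorem L_le_one {a : ℝ} (ha : 0 < a) : L (P a) ≤ 1 := by
  by_contra hc
  push Not at hc
  obtain ⟨c, hc1, hc2⟩ := EReal.lt_iff_exists_real_btwn.1 hc
  have hc1' : 1 < c := by exact_mod_cast hc1
  have ev := eventually_lt_of_lt_liminf (f := atTop) (u := fun x : ℝ => ((R (P a) x : ℝ) : EReal)) hc2
  obtain ⟨x0, hx0⟩ := eventually_atTop.1 ev
  have t1 : Tendsto (fun x : ℝ => c * (1 - P a (2 * x) / x)) atTop (𝓝 (c * (1 - 0))) :=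
    (tendsto_const_nhds.sub (P_two_div ha)).const_mul c
  have hle : c * (1 - 0) ≤ (1 : ℝ) := by
    refine le_of_tendsto_of_tendsto t1 pnt_two ?_
    filter_upwards [eventually_ge_atTop x0, eventually_ge_atTop 2] with x h4 h5
    have hx1 : (1 : ℝ) < x := by linarith
    have hPx := @P_pos a x hx1
    have hlog2 : 0 < Real.log (2 * x) := Real.log_pos (by linarith)
    obtain ⟨n, hn⟩ := exists_nat_ge (x / P a x)
    have key := lower (l := c) ha (by linarith) hx1 (fun y hy => by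
      have e : c < R (P a) y := by exact_mod_cast hx0 y (h4.trans hy)
      rw [R_eq] at e
      have hy1 : 1 < y := by linarith
      have := Real.log_pos hy1
      have := @P_pos a y hy1
      rw [div_mul_eq_mul_div, lt_div_iff₀ (by positivity)] at e
      rw [div_le_iff₀ (by positivity)]
      linarith) n x (2 * x) le_rfl (by linarith) le_rfl
        (by rw [div_le_iff₀ hPx] at hn; linarith)
    have hx0' : 0 < x := by linarith
    rw [div_le_iff₀ hlog2] at key
    rw [le_div_iff₀ hx0']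
    have e3 : c * (1 - P a (2 * x) / x) * x = c * (2 * x - x - P a (2 * x)) := by
      field_simp
      ring
    rw [e3]
    exact key
  linarith

theorem one_le_U {a : ℝ} (ha : 0 < a) : 1 ≤ U (P a) := by
  by_contra hc
  push Not at hc
  obtain ⟨c, hc1, hc2⟩ := EReal.lt_iff_exists_real_btwn.1 hc
  have hc2' : c < 1 := by exact_mod_cast hc2
  have hp : ∀ᶠ x in atTop, 0 < P a x := by
    filter_upwards [eventually_gt_atTop 1] with x hx using P_pos hx
  have h0 : (0 : EReal) < (c : EReal) :=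
    lt_of_le_of_lt ((L_nonneg hp).trans (L_le_U _)) hc1
  have h0' : 0 < c := by exact_mod_cast h0
  have ev := eventually_lt_of_limsup_lt (f := atTop) (u := fun x : ℝ => ((R (P a) x : ℝ) : EReal)) hc1
  obtain ⟨x0, hx0⟩ := eventually_atTop.1 ev
  have t1 : Tendsto (fun x : ℝ => c * (1 + P a (2 * x) / x)) atTop (𝓝 (c * (1 + 0))) :=
    (tendsto_const_nhds.add (P_two_div ha)).const_mul c
  have t2 := pnt_two.mul tendsto_ratio
  have hle : (1 : ℝ) * 1 ≤ c * (1 + 0) := by
    refine le_of_tendsto_of_tendsto t2 t1 ?_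
    filter_upwards [eventually_ge_atTop x0, eventually_ge_atTop 2] with x h4 h5
    have hx1 : (1 : ℝ) < x := by linarith
    have hPx := @P_pos a x hx1
    have hlog : 0 < Real.log x := Real.log_pos hx1
    have hlog2 : 0 < Real.log (2 * x) := Real.log_pos (by linarith)
    obtain ⟨n, hn⟩ := exists_nat_ge (x / P a x)
    have key := upper (u := c) ha h0'.le hx1 (fun y hy => by
      have e : R (P a) y < c := by exact_mod_cast hx0 y (h4.trans hy)
      rw [R_eq] at e
      have hy1 : 1 < y := by linarith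
      have := Real.log_pos hy1
      have := @P_pos a y hy1
      rw [div_mul_eq_mul_div, div_lt_iff₀ (by positivity)] at e
      rw [le_div_iff₀ (by positivity)]
      linarith) n x (2 * x) le_rfl (by linarith) le_rfl
        (by rw [div_le_iff₀ hPx] at hn; linarith)
    have hx0' : 0 < x := by linarith
    rw [le_div_iff₀ hlog] at key
    have e4 : (N (2 * x) - N x) * Real.log (2 * x) / x * (Real.log x / Real.log (2 * x)) =
        (N (2 * x) - N x) * Real.log x / x := by
      field_simp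
    show (N (2 * x) - N x) * Real.log (2 * x) / x * (Real.log x / Real.log (2 * x)) ≤ _
    rw [e4, div_le_iff₀ hx0']
    have e3 : c * (1 + P a (2 * x) / x) * x = c * (2 * x - x + P a (2 * x)) := by
      field_simp
      ring
    rw [e3]
    exact key
  linarith

/-- Q1 of the problem. -/
def Q1 : Prop :=
  Tendsto (fun a : ℝ => L (P a)) atTop (𝓝 1) ∧ Tendsto (fun a : ℝ => U (P a)) atTop (𝓝 1)

/-- For each `ε > 0` one exponent `a` is enough. -/
def OneExponent : Prop :=
  ∀ ε : ℝ, 0 < ε → ∃ a : ℝ, 0 < a ∧ ∀ᶠ x in atTop, |R (P a) x - 1| ≤ ε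

/-- `h` is admissible: it exceeds every fixed power of the logarithm by factors tending to
infinity, and `h(x) = o(x)`. -/
def Adm (h : ℝ → ℝ) : Prop :=
  (∀ a : ℝ, Tendsto (fun x => h x / P a x) atTop atTop) ∧ h =o[atTop] (id : ℝ → ℝ)

/-- The prime number theorem in intervals of every admissible length. -/
def AllLengths : Prop := ∀ h : ℝ → ℝ, Adm h → Tendsto (R h) atTop (𝓝 1)

/-- `R_h(x)` has a limit in `[0, ∞]` for every admissible `h`. -/
def AllConverge : Prop := ∀ h : ℝ → ℝ, Adm h → L h = U h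

/-- The length `(log x)^ψ(x)`. -/
noncomputable def E (ψ : ℝ → ℝ) (x : ℝ) : ℝ := Real.log x ^ ψ x

/-- `ψ` is nondecreasing and tends to infinity, `ψ ≤ Ψ` near infinity, and `(log x)^ψ(x) = o(x)`. -/
def Slow (Ψ ψ : ℝ → ℝ) : Prop :=
  Monotone ψ ∧ Tendsto ψ atTop atTop ∧ (∀ᶠ x in atTop, ψ x ≤ Ψ x) ∧ E ψ =o[atTop] (id : ℝ → ℝ)

theorem AtoB : Q1 → OneExponent := by
  rintro ⟨h1, h2⟩ ε hε
  have e1 : ∀ᶠ a : ℝ in atTop, ((1 - ε : ℝ) : EReal) < L (P a) :=
    h1.eventually (lt_mem_nhds (by exact_mod_cast (show 1 - ε < 1 by linarith)))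
  have e2 : ∀ᶠ a : ℝ in atTop, U (P a) < ((1 + ε : ℝ) : EReal) :=
    h2.eventually (gt_mem_nhds (by exact_mod_cast (show 1 < 1 + ε by linarith)))
  obtain ⟨a, ha1, ha2, ha3⟩ := (e1.and (e2.and (eventually_gt_atTop 0))).exists
  refine ⟨a, ha3, ?_⟩
  filter_upwards [eventually_lt_of_lt_liminf (f := atTop) (u := fun x : ℝ => ((R (P a) x : ℝ) : EReal)) ha1,
    eventually_lt_of_limsup_lt (f := atTop) (u := fun x : ℝ => ((R (P a) x : ℝ) : EReal)) ha2] with x hx1 hx2
  have i1 : 1 - ε < R (P a) x := by exact_mod_cast hx1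
  have i2 : R (P a) x < 1 + ε := by exact_mod_cast hx2
  rw [abs_le]
  constructor <;> linarith

theorem BtoA (hB : OneExponent) : Q1 := by
  have key : ∀ ε : ℝ, 0 < ε → ∀ᶠ b : ℝ in atTop, ((1 - ε : ℝ) : EReal) ≤ L (P b) ∧
      U (P b) ≤ ((1 + ε : ℝ) : EReal) := by
    intro ε hε
    obtain ⟨a, ha, hev⟩ := hB ε hε
    filter_upwards [eventually_gt_atTop a] with b hb
    have l1 : ((1 - ε : ℝ) : EReal) ≤ L (P a) := by
      unfold L
      refine le_liminf_of_le (by isBoundedDefault) ?_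
      filter_upwards [hev] with x hx
      rw [abs_le] at hx
      exact_mod_cast (show 1 - ε ≤ R (P a) x by linarith [hx.1])
    have u1 : U (P a) ≤ ((1 + ε : ℝ) : EReal) := by
      unfold U
      refine limsup_le_of_le (by isBoundedDefault) ?_
      filter_upwards [hev] with x hx
      rw [abs_le] at hx
      exact_mod_cast (show R (P a) x ≤ 1 + ε by linarith [hx.2])
    exact ⟨l1.trans (part_L ha (P_div hb) (P_isLittleO b)),
      (part_U ha (P_div hb) (P_isLittleO b)).trans u1⟩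
  constructor
  · rw [tendsto_order]
    constructor
    · intro c hc
      obtain ⟨r, hr1, hr2⟩ := EReal.lt_iff_exists_real_btwn.1 hc
      have hr : r < 1 := by exact_mod_cast hr2
      filter_upwards [key (1 - r) (by linarith)] with b hb
      refine lt_of_lt_of_le hr1 ?_
      have := hb.1
      rwa [sub_sub_cancel] at this
    · intro c hc
      obtain ⟨r, hr1, hr2⟩ := EReal.lt_iff_exists_real_btwn.1 hc
      have hr : 1 < r := by exact_mod_cast hr1
      filter_upwards [key (r - 1) (by linarith)] with b hb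
      refine lt_of_le_of_lt ((L_le_U _).trans hb.2) ?_
      rwa [add_sub_cancel]
  · rw [tendsto_order]
    constructor
    · intro c hc
      obtain ⟨r, hr1, hr2⟩ := EReal.lt_iff_exists_real_btwn.1 hc
      have hr : r < 1 := by exact_mod_cast hr2
      filter_upwards [key (1 - r) (by linarith)] with b hb
      refine lt_of_lt_of_le hr1 ?_
      have := hb.1
      rw [sub_sub_cancel] at this
      exact this.trans (L_le_U _)
    · intro c hc
      obtain ⟨r, hr1, hr2⟩ := EReal.lt_iff_exists_real_btwn.1 hc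
      have hr : 1 < r := by exact_mod_cast hr1
      filter_upwards [key (r - 1) (by linarith)] with b hb
      refine lt_of_le_of_lt hb.2 ?_
      rwa [add_sub_cancel]

theorem BtoC (hB : OneExponent) : AllLengths := by
  rintro h ⟨hh, ho⟩
  rw [Metric.tendsto_nhds]
  intro ε hε
  have hδ : 0 < min (ε / 4) (1 / 2) := by positivity
  obtain ⟨a, ha, hev⟩ := hB _ hδ
  have hd1 : min (ε / 4) (1 / 2 : ℝ) ≤ ε / 4 := min_le_left _ _
  have hd2 : min (ε / 4) (1 / 2 : ℝ) ≤ 1 / 2 := min_le_right _ _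
  have e1 : ∀ᶠ x in atTop, 1 - min (ε / 4) (1 / 2) ≤ R (P a) x := by
    filter_upwards [hev] with x hx
    rw [abs_le] at hx
    linarith [hx.1]
  have e2 : ∀ᶠ x in atTop, R (P a) x ≤ 1 + min (ε / 4) (1 / 2) := by
    filter_upwards [hev] with x hx
    rw [abs_le] at hx
    linarith [hx.2]
  filter_upwards [sandwich_low ha (by linarith) (hh a) ho e1
      (show 1 - min (ε / 4) (1 / 2) - ε / 4 < 1 - min (ε / 4) (1 / 2) by linarith),
    sandwich_up ha (by linarith) (hh a) ho e2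
      (show 1 + min (ε / 4) (1 / 2) < 1 + min (ε / 4) (1 / 2) + ε / 4 by linarith)] with x h1 h2
  rw [Real.dist_eq, abs_lt]
  constructor <;> linarith

theorem adm_E {Ψ ψ : ℝ → ℝ} (hs : Slow Ψ ψ) : Adm (E ψ) := by
  obtain ⟨_, hψ, _, ho⟩ := hs
  refine ⟨?_, ho⟩
  intro a
  refine tendsto_atTop_mono' atTop ?_ Real.tendsto_log_atTop
  filter_upwards [hψ.eventually_ge_atTop (a + 1), eventually_ge_atTop (Real.exp 1)] with x h1 h2
  have hx0 : 0 < x := (Real.exp_pos 1).trans_le h2
  have hl : 1 ≤ Real.log x := (Real.le_log_iff_exp_le hx0).2 h2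
  unfold P E
  rw [← Real.rpow_sub (by linarith)]
  calc Real.log x = Real.log x ^ (1 : ℝ) := (Real.rpow_one _).symm
    _ ≤ Real.log x ^ (ψ x - a) := Real.rpow_le_rpow_of_exponent_le hl (by linarith)

theorem diag (Ψ : ℝ → ℝ) (hΨ : Tendsto Ψ atTop atTop) (Q : ℕ → ℝ → Prop)
    (hfr : ∀ j : ℕ, ∃ᶠ x in atTop, Q j (R (P ((j : ℝ) + 1)) x)) :
    ∃ ψ : ℝ → ℝ, Slow Ψ ψ ∧ ∃ X : ℕ → ℝ, Tendsto X atTop atTop ∧ ∀ j, Q j (R (E ψ) (X j)) := by
  have ex : ∀ (j : ℕ) (z : ℝ), ∃ x, z ≤ x ∧ Q j (R (P ((j : ℝ) + 1)) x) ∧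
      ∀ y, x ≤ y → ((j : ℝ) + 1 ≤ Ψ y ∧ P ((j : ℝ) + 1) y ≤ y ^ (1 / 2 : ℝ)) := by
    intro j z
    have f1 := hfr j
    have g1 : ∀ᶠ y in atTop, (j : ℝ) + 1 ≤ Ψ y ∧ P ((j : ℝ) + 1) y ≤ y ^ (1 / 2 : ℝ) := by
      have k1 := isLittleO_log_rpow_rpow_atTop ((j : ℝ) + 1) (show (0 : ℝ) < 1 / 2 by norm_num)
      filter_upwards [hΨ.eventually_ge_atTop ((j : ℝ) + 1), k1.bound (show (0 : ℝ) < 1 by norm_num),
        eventually_gt_atTop 1] with y h1 h2 h3
      refine ⟨h1, ?_⟩
      rw [one_mul, Real.norm_eq_abs, Real.norm_eq_abs,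
        abs_of_pos (Real.rpow_pos_of_pos (by linarith : (0 : ℝ) < y) _)] at h2
      exact (le_abs_self _).trans h2
    obtain ⟨y0, hy0⟩ := eventually_atTop.1 g1
    obtain ⟨x, hx1, hx2⟩ := (f1.and_eventually (eventually_ge_atTop (max z y0))).exists
    exact ⟨x, (le_max_left _ _).trans hx2, hx1, fun y hy => hy0 y (((le_max_right _ _).trans hx2).trans hy)⟩
  choose f hf1 hf2 hf3 using ex
  obtain ⟨X, X0, XS⟩ : ∃ X : ℕ → ℝ, X 0 = f 0 0 ∧ ∀ n, X (n + 1) = f (n + 1) (X n + 1) :=
    ⟨fun n => Nat.rec (motive := fun _ => ℝ) (f 0 0) (fun n x => f (n + 1) (x + 1)) n,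
      rfl, fun _ => rfl⟩
  have Xstep : ∀ n, X n + 1 ≤ X (n + 1) := fun n => by rw [XS]; exact hf1 _ _
  have Xmono : StrictMono X := strictMono_nat_of_lt_succ (fun n => by linarith [Xstep n])
  have Xge : ∀ n : ℕ, (n : ℝ) ≤ X n := by
    intro n
    induction n with
    | zero =>
      rw [X0]
      simpa using hf1 0 0
    | succ n ih => push_cast; linarith [Xstep n]
  have X2 : ∀ j : ℕ, Q j (R (P ((j : ℝ) + 1)) (X j)) := by
    intro j
    cases j with
    | zero => rw [X0]; exact hf2 0 0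
    | succ j => rw [XS]; exact hf2 _ _
  have X3 : ∀ j : ℕ, ∀ y, X j ≤ y → ((j : ℝ) + 1 ≤ Ψ y ∧ P ((j : ℝ) + 1) y ≤ y ^ (1 / 2 : ℝ)) := by
    intro j
    cases j with
    | zero => rw [X0]; exact hf3 0 0
    | succ j => rw [XS]; exact hf3 _ _
  have exN : ∀ y : ℝ, ∃ j : ℕ, y < X j := by
    intro y
    obtain ⟨n, hn⟩ := exists_nat_gt y
    exact ⟨n, hn.trans_le (Xge n)⟩
  have exm : ∀ y : ℝ, ∃ k : ℕ, y < X k ∧ ∀ j, j < k → X j ≤ y := by
    intro y
    classical
    exact ⟨Nat.find (exN y), Nat.find_spec (exN y), fun j hj => not_lt.1 (Nat.find_min (exN y) hj)⟩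
  choose m m_spec m_min using exm
  have m_le : ∀ y j, y < X j → m y ≤ j := by
    intro y j hj
    by_contra hc
    exact absurd hj (not_lt.2 (m_min y j (by omega)))
  have m_mono : Monotone m := by
    intro y z hyz
    exact m_le y _ (hyz.trans_lt (m_spec z))
  have m_X : ∀ j, m (X j) = j + 1 := by
    intro j
    apply le_antisymm
    · exact m_le _ _ (Xmono (Nat.lt_succ_self j))
    · by_contra hc
      push Not at hc
      have h1 : m (X j) ≤ j := by omega
      exact absurd (m_spec (X j)) (not_lt.2 (Xmono.monotone h1))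
  let ψ : ℝ → ℝ := fun y => (m y : ℝ)
  have ψ_mono : Monotone ψ := fun y z h => by
    show ((m y : ℕ) : ℝ) ≤ (m z : ℝ)
    exact_mod_cast m_mono h
  have ψ_top : Tendsto ψ atTop atTop := by
    apply tendsto_atTop_atTop.2
    intro b
    obtain ⟨n, hn⟩ := exists_nat_ge b
    refine ⟨X n, fun y hy => ?_⟩
    have h1 : m (X n) ≤ m y := m_mono hy
    have h1' : m (X n) = n + 1 := m_X n
    have h2 : ((n + 1 : ℕ) : ℝ) ≤ (m y : ℝ) := by exact_mod_cast (h1' ▸ h1)
    push_cast at h2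
    show b ≤ (m y : ℝ)
    linarith
  have good : ∀ y, X 0 ≤ y → ψ y ≤ Ψ y ∧ Real.log y ^ ψ y ≤ y ^ (1 / 2 : ℝ) := by
    intro y hy
    have h1 : m (X 0) ≤ m y := m_mono hy
    have h1' : m (X 0) = 0 + 1 := m_X 0
    obtain ⟨k, hk⟩ : ∃ k, m y = k + 1 := ⟨m y - 1, by omega⟩
    have h2 := X3 k y (m_min y k (by omega))
    have h3 : ψ y = (k : ℝ) + 1 := by
      show ((m y : ℕ) : ℝ) = _
      rw [hk]; push_cast; ring
    rw [h3]
    exact h2
  have h_o : E ψ =o[atTop] (id : ℝ → ℝ) := by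
    have k1 : (fun x : ℝ => Real.log x ^ ψ x) =O[atTop] (fun x : ℝ => x ^ (1 / 2 : ℝ)) := by
      apply IsBigO.of_bound 1
      filter_upwards [eventually_ge_atTop (X 0), eventually_gt_atTop 1] with y h1 h2
      rw [one_mul, Real.norm_eq_abs, Real.norm_eq_abs,
        abs_of_pos (Real.rpow_pos_of_pos (Real.log_pos h2) _),
        abs_of_pos (Real.rpow_pos_of_pos (by linarith : (0 : ℝ) < y) _)]
      exact (good y h1).2
    have k2 : (fun x : ℝ => x ^ (1 / 2 : ℝ)) =o[atTop] (id : ℝ → ℝ) := by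
      have h0 : Tendsto (fun x : ℝ => x ^ (-(1 / 2 : ℝ))) atTop (𝓝 0) :=
        tendsto_rpow_neg_atTop (by norm_num)
      apply (isLittleO_iff_tendsto' _).2
      · refine h0.congr' ?_
        filter_upwards [eventually_gt_atTop 0] with x hx
        rw [Real.rpow_neg hx.le]
        have hs : x ^ (1 / 2 : ℝ) * x ^ (1 / 2 : ℝ) = x := by
          rw [← Real.rpow_add hx]; norm_num
        have hp : 0 < x ^ (1 / 2 : ℝ) := Real.rpow_pos_of_pos hx _
        rw [id, inv_eq_one_div, div_eq_div_iff hp.ne' hx.ne', hs, one_mul]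
      · filter_upwards [eventually_gt_atTop 0] with x hx h
        simp only [id] at h
        exact absurd h hx.ne'
    exact k1.trans_isLittleO k2
  have hXtop : Tendsto X atTop atTop :=
    tendsto_atTop_mono Xge tendsto_natCast_atTop_atTop
  refine ⟨ψ, ⟨ψ_mono, ψ_top,
    by filter_upwards [eventually_ge_atTop (X 0)] with y hy using (good y hy).1, h_o⟩, X, hXtop, ?_⟩
  intro j
  have e1 : R (E ψ) (X j) = R (P ((j : ℝ) + 1)) (X j) := by
    have e2 : ψ (X j) = (j : ℝ) + 1 := by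
      show ((m (X j) : ℕ) : ℝ) = _
      rw [m_X]; push_cast; ring
    simp only [R, P, E, e2]
  rw [e1]
  exact X2 j

theorem DtoB (Ψ : ℝ → ℝ) (hΨ : Tendsto Ψ atTop atTop)
    (hD : ∀ ψ, Slow Ψ ψ → Tendsto (R (E ψ)) atTop (𝓝 1)) : OneExponent := by
  by_contra hB
  unfold OneExponent at hB
  push Not at hB
  obtain ⟨ε, hε, hfr⟩ := hB
  obtain ⟨ψ, hs, X, hX, hj⟩ := diag Ψ hΨ (fun _ v => ε < |v - 1|)
    (fun j => hfr ((j : ℝ) + 1) (by positivity))
  obtain ⟨j, h⟩ := (Metric.tendsto_nhds.1 ((hD ψ hs).comp hX) ε hε).exists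
  simp only [Function.comp] at h
  rw [Real.dist_eq] at h
  linarith [hj j]

theorem P_sub (n : ℕ) {b : ℝ} (hb : 0 < b) (h : b ≤ (n : ℝ) + 1) :
    L (P b) ≤ L (P ((n : ℝ) + 1)) ∧ U (P ((n : ℝ) + 1)) ≤ U (P b) := by
  rcases h.eq_or_lt with h | h
  · rw [h]; exact ⟨le_rfl, le_rfl⟩
  · exact ⟨part_L hb (P_div h) (P_isLittleO _), part_U hb (P_div h) (P_isLittleO _)⟩

theorem P_sub' (n : ℕ) {b : ℝ} (h : (n : ℝ) + 1 ≤ b) :
    L (P ((n : ℝ) + 1)) ≤ L (P b) ∧ U (P b) ≤ U (P ((n : ℝ) + 1)) := by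
  have h0 : (0 : ℝ) < (n : ℝ) + 1 := by positivity
  rcases h.eq_or_lt with h | h
  · rw [h]; exact ⟨le_rfl, le_rfl⟩
  · exact ⟨part_L h0 (P_div h) (P_isLittleO _), part_U h0 (P_div h) (P_isLittleO _)⟩

theorem tendsto_L : Tendsto (fun a : ℝ => L (P a)) atTop (𝓝 (⨆ n : ℕ, L (P ((n : ℝ) + 1)))) := by
  rw [tendsto_order]
  constructor
  · intro c hc
    obtain ⟨n, hn⟩ := lt_iSup_iff.1 hc
    filter_upwards [eventually_ge_atTop ((n : ℝ) + 1)] with b hb
    exact hn.trans_le (P_sub' n hb).1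
  · intro c hc
    filter_upwards [eventually_gt_atTop 0] with b hb
    obtain ⟨n, hn⟩ := exists_nat_ge b
    exact lt_of_le_of_lt ((P_sub n hb (by linarith)).1.trans
      (le_iSup (fun n : ℕ => L (P ((n : ℝ) + 1))) n)) hc

theorem tendsto_U : Tendsto (fun a : ℝ => U (P a)) atTop (𝓝 (⨅ n : ℕ, U (P ((n : ℝ) + 1)))) := by
  rw [tendsto_order]
  constructor
  · intro c hc
    filter_upwards [eventually_gt_atTop 0] with b hb
    obtain ⟨n, hn⟩ := exists_nat_ge b
    exact lt_of_lt_of_le hc ((iInf_le (fun n : ℕ => U (P ((n : ℝ) + 1))) n).trans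
      (P_sub n hb (by linarith)).2)
  · intro c hc
    obtain ⟨n, hn⟩ := iInf_lt_iff.1 hc
    filter_upwards [eventually_ge_atTop ((n : ℝ) + 1)] with b hb
    exact lt_of_le_of_lt (P_sub' n hb).2 hn

theorem adm_bounds {h : ℝ → ℝ} (hh : Adm h) :
    (⨆ n : ℕ, L (P ((n : ℝ) + 1))) ≤ L h ∧ U h ≤ ⨅ n : ℕ, U (P ((n : ℝ) + 1)) :=
  ⟨iSup_le fun n => part_L (by positivity) (hh.1 _) hh.2,
    le_iInf fun n => part_U (by positivity) (hh.1 _) hh.2⟩

theorem extremal (Ψ : ℝ → ℝ) (hΨ : Tendsto Ψ atTop atTop) : ∃ ψ : ℝ → ℝ, Slow Ψ ψ ∧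
    L (E ψ) = (⨆ n : ℕ, L (P ((n : ℝ) + 1))) ∧ U (E ψ) = ⨅ n : ℕ, U (P ((n : ℝ) + 1)) := by
  obtain ⟨D, hD⟩ := exists_surjective_nat (ℕ × Bool × ℚ)
  obtain ⟨ψ, hs, X, hX, hj⟩ := diag Ψ hΨ (fun j v =>
      ((D j).2.1 = true → (⨆ n : ℕ, L (P ((n : ℝ) + 1))) < (((D j).2.2 : ℝ) : EReal) →
        v < ((D j).2.2 : ℝ)) ∧
      ((D j).2.1 = false → (((D j).2.2 : ℝ) : EReal) < (⨅ n : ℕ, U (P ((n : ℝ) + 1))) →
        ((D j).2.2 : ℝ) < v)) (by
    intro j
    rcases hb : (D j).2.1 with _ | _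
    · by_cases hc : (((D j).2.2 : ℝ) : EReal) < (⨅ n : ℕ, U (P ((n : ℝ) + 1)))
      · have h1 : (((D j).2.2 : ℝ) : EReal) < U (P ((j : ℝ) + 1)) := hc.trans_le (iInf_le _ j)
        refine (frequently_lt_of_lt_limsup (f := atTop)
          (u := fun x : ℝ => ((R (P ((j : ℝ) + 1)) x : ℝ) : EReal)) (by isBoundedDefault) h1).mono ?_
        intro x hx
        exact ⟨by simp, fun _ _ => by exact_mod_cast hx⟩
      · exact Frequently.of_forall fun x => ⟨by simp, fun _ h => absurd h hc⟩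
    · by_cases hc : (⨆ n : ℕ, L (P ((n : ℝ) + 1))) < (((D j).2.2 : ℝ) : EReal)
      · have h1 : L (P ((j : ℝ) + 1)) < (((D j).2.2 : ℝ) : EReal) :=
          lt_of_le_of_lt (le_iSup (fun n : ℕ => L (P ((n : ℝ) + 1))) j) hc
        refine (frequently_lt_of_liminf_lt (f := atTop)
          (u := fun x : ℝ => ((R (P ((j : ℝ) + 1)) x : ℝ) : EReal)) (by isBoundedDefault) h1).mono ?_
        intro x hx
        exact ⟨fun _ _ => by exact_mod_cast hx, by simp⟩
      · exact Frequently.of_forall fun x => ⟨fun _ h => absurd h hc, by simp⟩)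
  have hadm := adm_E hs
  have hsub : ∀ (b : Bool) (q : ℚ), ∃ᶠ j in atTop, (D j).2.1 = b ∧ (D j).2.2 = q := by
    intro b q
    rw [Nat.frequently_atTop_iff_infinite]
    choose g hg using fun k : ℕ => hD (k, b, q)
    refine Set.infinite_of_injective_forall_mem (f := g) ?_ ?_
    · intro k1 k2 h
      have h1 := hg k1
      rw [h, hg k2] at h1
      simpa using h1.symm
    · intro k
      show (D (g k)).2.1 = b ∧ (D (g k)).2.2 = q
      rw [hg k]
      exact ⟨rfl, rfl⟩
  refine ⟨ψ, hs, le_antisymm ?_ (adm_bounds hadm).1, le_antisymm (adm_bounds hadm).2 ?_⟩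
  · by_contra hc
    push Not at hc
    obtain ⟨q, hq1, hq2⟩ := EReal.lt_iff_exists_rat_btwn.1 hc
    have ev := eventually_lt_of_lt_liminf (f := atTop) (u := fun x : ℝ => ((R (E ψ) x : ℝ) : EReal)) hq2
    obtain ⟨j, ⟨h1, h2⟩, h3⟩ := ((hsub true q).and_eventually (hX.eventually ev)).exists
    have h4 := (hj j).1 h1 (by rw [h2]; exact hq1)
    rw [h2] at h4
    have h5 : ((q : ℝ)) < R (E ψ) (X j) := by exact_mod_cast h3
    linarith
  · by_contra hc
    push Not at hc
    obtain ⟨q, hq1, hq2⟩ := EReal.lt_iff_exists_rat_btwn.1 hc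
    have ev := eventually_lt_of_limsup_lt (f := atTop) (u := fun x : ℝ => ((R (E ψ) x : ℝ) : EReal)) hq1
    obtain ⟨j, ⟨h1, h2⟩, h3⟩ := ((hsub false q).and_eventually (hX.eventually ev)).exists
    have h4 := (hj j).2 h1 (by rw [h2]; exact hq2)
    rw [h2] at h4
    have h5 : R (E ψ) (X j) < ((q : ℝ)) := by exact_mod_cast h3
    linarith

theorem CtoConv (hC : AllLengths) : AllConverge := by
  intro h hh
  have h1 := hC h hh
  have h2 : Tendsto (fun x : ℝ => ((R h x : ℝ) : EReal)) atTop (𝓝 ((1 : ℝ) : EReal)) :=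
    (continuous_coe_real_ereal.tendsto 1).comp h1
  unfold L U
  rw [h2.liminf_eq, h2.limsup_eq]

theorem ConvtoA (hC : AllConverge) : Q1 := by
  obtain ⟨ψ, hs, hL, hU⟩ := extremal id tendsto_id
  have h1 := hC _ (adm_E hs)
  rw [hL, hU] at h1
  have h2 : (⨆ n : ℕ, L (P ((n : ℝ) + 1))) ≤ 1 := iSup_le fun n => L_le_one (by positivity)
  have h3 : (1 : EReal) ≤ ⨅ n : ℕ, U (P ((n : ℝ) + 1)) := le_iInf fun n => one_le_U (by positivity)
  have h4 : (⨆ n : ℕ, L (P ((n : ℝ) + 1))) = 1 := le_antisymm h2 (h3.trans h1.ge)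
  have h5 : (⨅ n : ℕ, U (P ((n : ℝ) + 1))) = 1 := h1 ▸ h4
  have t1 := tendsto_L
  have t2 := tendsto_U
  rw [h4] at t1
  rw [h5] at t2
  exact ⟨t1, t2⟩

/-- Part 1: for `a > 0` and every length `h` with `(log x)^a = o(h(x))` and `h(x) = o(x)` one has
`L_a ≤ L(h) ≤ U(h) ≤ U_a`.
Part 2: however slowly `Ψ` tends to infinity, some length `(log x)^ψ(x)`, `ψ ≤ Ψ`, is extremal
among all admissible lengths, and its lower and upper limits are the limits of `L_a` and `U_a`.
Part 3: the equivalent forms of Q1. -/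
theorem result :
    (∀ a : ℝ, 0 < a → ∀ h : ℝ → ℝ, Tendsto (fun x => h x / P a x) atTop atTop →
      h =o[atTop] (id : ℝ → ℝ) → L (P a) ≤ L h ∧ L h ≤ U h ∧ U h ≤ U (P a)) ∧
    (∀ Ψ : ℝ → ℝ, Tendsto Ψ atTop atTop → ∃ ψ : ℝ → ℝ, Slow Ψ ψ ∧ Adm (E ψ) ∧
      (∀ h : ℝ → ℝ, Adm h → L (E ψ) ≤ L h ∧ U h ≤ U (E ψ)) ∧
      Tendsto (fun a : ℝ => L (P a)) atTop (𝓝 (L (E ψ))) ∧
      Tendsto (fun a : ℝ => U (P a)) atTop (𝓝 (U (E ψ)))) ∧
    (∀ Ψ : ℝ → ℝ, Tendsto Ψ atTop atTop →
      List.TFAE [Q1, OneExponent, AllLengths, AllConverge,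
        ∀ ψ : ℝ → ℝ, Slow Ψ ψ → Tendsto (R (E ψ)) atTop (𝓝 1)]) := by
  refine ⟨fun a ha h hh ho => ⟨part_L ha hh ho, L_le_U h, part_U ha hh ho⟩, ?_, ?_⟩
  · intro Ψ hΨ
    obtain ⟨ψ, hs, hL, hU⟩ := extremal Ψ hΨ
    refine ⟨ψ, hs, adm_E hs, ?_, ?_, ?_⟩
    · intro h hh
      rw [hL, hU]
      exact adm_bounds hh
    · rw [hL]; exact tendsto_L
    · rw [hU]; exact tendsto_U
  · intro Ψ hΨ
    tfae_have 1 → 2 := AtoB
    tfae_have 2 → 1 := BtoA
    tfae_have 2 → 3 := BtoC
    tfae_have 3 → 4 := CtoConv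
    tfae_have 4 → 1 := ConvtoA
    tfae_have 3 → 5 := fun h ψ hs => h _ (adm_E hs)
    tfae_have 5 → 2 := DtoB Ψ hΨ
    tfae_finish

end Pool.Agent.Results.MP_b09185_nt.ExtremalLengths
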